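import Pool.Agent.Y755.FK.Stm

/-!
Project FK (helper755), part GB: both variables large.
-/

set_option autoImplicit false

open Finset MeasureTheory Filter

open scoped Classical

namespace Pool.Agent.Y240.FK

open Pool.Agent.Y755.FK

noncomputable section

theorem abs_J_le (a : ℤ) (n : ℕ) : |J a n| ≤ 1 := by
  unfold J
  rcases jacobiSym.trichotomy a n with h | h | h <;> rw [h] <;> norm_num

theorem norm_pow_eq {p : ℕ} (hp : p.Prime) (τ : ℝ) : ‖(p : ℂ) ^ (1 + τ * Complex.I)‖ = p := by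
  rw [Complex.norm_natCast_cpow_of_pos hp.pos]
  simp

theorem factor_bound {p : ℕ} (hp : p.Prime) (τ : ℝ) : (p : ℝ) ≤ ‖2 * (p : ℂ) ^ (1 + τ * Complex.I) + 1‖ := by
  have h1 : ‖2 * (p : ℂ) ^ (1 + τ * Complex.I)‖ = 2 * p := by
    rw [norm_mul, norm_pow_eq hp]
    simp
  have h2 : ‖2 * (p : ℂ) ^ (1 + τ * Complex.I)‖ - ‖(-1 : ℂ)‖ ≤ ‖2 * (p : ℂ) ^ (1 + τ * Complex.I) - (-1)‖ :=
    norm_sub_norm_le _ _
  rw [h1, sub_neg_eq_add, norm_neg, norm_one] at h2
  have h3 : (1 : ℝ) ≤ p := by exact_mod_cast hp.one_le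
  linarith

theorem factor_ne {p : ℕ} (hp : p.Prime) (τ : ℝ) : 2 * (p : ℂ) ^ (1 + τ * Complex.I) + 1 ≠ 0 := by
  intro h
  have := factor_bound hp τ
  rw [h, norm_zero] at this
  have h3 : (1 : ℝ) ≤ p := by exact_mod_cast hp.one_le
  linarith

theorem ff_norm (τ : ℝ) {n : ℕ} (hn : Squarefree n) : ‖ff (1 + τ * Complex.I) n‖ ≤ 1 / n := by
  unfold ff
  rw [norm_prod]
  have h : ∀ p ∈ n.primeFactors, ‖(2 * (p : ℂ) ^ (1 + τ * Complex.I) + 1)⁻¹‖ ≤ (p : ℝ)⁻¹ := by
    intro p hp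
    have hp' := Nat.prime_of_mem_primeFactors hp
    rw [norm_inv]
    exact inv_anti₀ (by exact_mod_cast hp'.pos) (factor_bound hp' τ)
  refine (Finset.prod_le_prod (fun p _ => norm_nonneg _) h).trans (le_of_eq ?_)
  rw [Finset.prod_inv_distrib, one_div]
  congr 1
  rw [← Nat.cast_prod, Nat.prod_primeFactors_of_squarefree hn]

theorem ff_mul (s : ℂ) {x y : ℕ} (h : Nat.Coprime x y) : ff s (x * y) = ff s x * ff s y := by
  unfold ff
  rw [h.primeFactors_mul, Finset.prod_union h.disjoint_primeFactors]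

theorem ff_cont (n : ℕ) : Continuous fun τ : ℝ => ff (1 + τ * Complex.I) n := by
  unfold ff
  refine continuous_finsetProd _ fun p hp => ?_
  have hp' := Nat.prime_of_mem_primeFactors hp
  refine Continuous.inv₀ ?_ fun τ => factor_ne hp' τ
  refine (continuous_const.mul ?_).add continuous_const
  refine Continuous.const_cpow ?_ (Or.inl (by exact_mod_cast hp'.ne_zero))
  fun_prop

theorem Ph_bound (hP : S_PHB) : ∃ C : ℝ, 0 ≤ C ∧ ∀ τ : ℝ, ‖Ph (τ * Complex.I)‖ ≤ C * (1 + τ ^ 2)⁻¹ := by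
  obtain ⟨⟨C, hC⟩, -⟩ := hP
  refine ⟨max C 0, le_max_right _ _, fun τ => ?_⟩
  have h := hC (τ * Complex.I) (by simp) (by simp)
  have e : ‖(τ : ℂ) * Complex.I‖ ^ 2 = τ ^ 2 := by
    rw [norm_mul, Complex.norm_I, mul_one, Complex.norm_real, Real.norm_eq_abs, sq_abs]
  rw [e, div_eq_mul_inv] at h
  exact h.trans (mul_le_mul_of_nonneg_right (le_max_left _ _) (by positivity))

/-- the kernel -/
def ker (u τ : ℝ) : ℂ := Ph (τ * Complex.I) * Complex.exp (u * (τ * Complex.I))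

theorem ker_cont (hP : S_PHB) (u : ℝ) : Continuous (ker u) := by
  unfold ker
  have h := hP.2.1.continuous
  refine (h.comp (by fun_prop)).mul (by fun_prop)

theorem ker_norm (u τ : ℝ) : ‖ker u τ‖ = ‖Ph (τ * Complex.I)‖ := by
  unfold ker
  rw [norm_mul, Complex.norm_exp]
  simp

theorem int_bound (hP : S_PHB) {C : ℝ} (hC : ∀ τ : ℝ, ‖Ph (τ * Complex.I)‖ ≤ C * (1 + τ ^ 2)⁻¹)
    (u B : ℝ) (_ : 0 ≤ B) (g : ℝ → ℂ) (hg : Continuous g) (hgB : ∀ τ, ‖g τ‖ ≤ B) :
    Integrable (fun τ => ker u τ * g τ) ∧ ‖∫ τ : ℝ, ker u τ * g τ‖ ≤ C * B * Real.pi := by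
  have hb : ∀ τ, ‖ker u τ * g τ‖ ≤ C * B * (1 + τ ^ 2)⁻¹ := by
    intro τ
    rw [norm_mul, ker_norm]
    calc ‖Ph (τ * Complex.I)‖ * ‖g τ‖ ≤ (C * (1 + τ ^ 2)⁻¹) * B :=
          mul_le_mul (hC τ) (hgB τ) (norm_nonneg _) ((norm_nonneg _).trans (hC τ))
      _ = C * B * (1 + τ ^ 2)⁻¹ := by ring
  have hi : Integrable (fun τ : ℝ => C * B * (1 + τ ^ 2)⁻¹) := integrable_inv_one_add_sq.const_mul _
  refine ⟨hi.mono' ((ker_cont hP u).mul hg).aestronglyMeasurable (Eventually.of_forall hb), ?_⟩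
  refine (norm_integral_le_of_norm_le hi (Eventually.of_forall hb)).trans (le_of_eq ?_)
  rw [integral_const_mul, integral_univ_inv_one_add_sq]

theorem term_eq (hS : S_PSI) (u : ℝ) {x y : ℕ} (hx : osf x) (hy : osf y) :
    (J x y : ℂ) * (Ps (x * y) u : ℂ) = (1 / (2 * Real.pi) : ℂ) * ∫ τ : ℝ, ker u τ *
      (ff (1 + τ * Complex.I) x * ff (1 + τ * Complex.I) y * (J x y : ℂ)) := by
  by_cases h : Nat.Coprime x y
  · have ho : osf (x * y) := ⟨hx.1.mul hy.1, (Nat.squarefree_mul h).2 ⟨hx.2, hy.2⟩⟩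
    rw [hS _ _ ho, mul_left_comm, ← integral_const_mul]
    congr 2
    funext τ
    rw [ff_mul _ h]
    unfold ker
    ring
  · have h0 : J x y = 0 := by
      unfold J
      have : jacobiSym (x : ℤ) y = 0 := by
        have : NeZero y := ⟨fun hy0 => by
          rw [hy0] at hy
          exact absurd hy.1 (by decide)⟩
        rw [jacobiSym.eq_zero_iff_not_coprime]
        rw [Int.gcd_natCast_natCast]
        exact h
      rw [this]
      simp
    rw [h0]
    simp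

/-- coefficients of a box -/
def al (X N : ℕ) (e : ℤ) (τ : ℝ) (n : ℕ) : ℂ :=
  if X < n ∧ n ≤ N ∧ osf n then (X : ℂ) * (J e n : ℂ) * ff (1 + τ * Complex.I) n else 0

theorem al_norm (X N : ℕ) (e : ℤ) (τ : ℝ) (n : ℕ) : ‖al X N e τ n‖ ≤ 1 := by
  unfold al
  split_ifs with h
  · rw [norm_mul, norm_mul, Complex.norm_natCast, Complex.norm_real, Real.norm_eq_abs]
    have h1 := ff_norm τ h.2.2.2
    have hn : (0 : ℝ) < n := by
      have : 0 < n := by omega
      exact_mod_cast this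
    have hX : (X : ℝ) ≤ n := by exact_mod_cast h.1.le
    calc (X : ℝ) * |J e n| * ‖ff (1 + τ * Complex.I) n‖ ≤ (X : ℝ) * 1 * (1 / n) := by
          gcongr
          exact abs_J_le e n
      _ ≤ 1 := by
          rw [mul_one, mul_one_div, div_le_one hn]
          exact hX
  · simp

theorem box (hP : S_PHB) (hS : S_PSI) {CP : ℝ} (hCP : ∀ τ : ℝ, ‖Ph (τ * Complex.I)‖ ≤ CP * (1 + τ ^ 2)⁻¹)
    {C : ℝ} {K : ℕ} (hC : 0 ≤ C)
    (hB : ∀ (X Y : ℕ) (α β : ℕ → ℂ), 1 ≤ X → 1 ≤ Y → (∀ n, ‖α n‖ ≤ 1) → (∀ n, ‖β n‖ ≤ 1) →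
      ‖∑ x ∈ (Ioc X (2 * X)).filter osf, ∑ y ∈ (Ioc Y (2 * Y)).filter osf, α x * β y * (J x y : ℂ)‖ ≤
        C * (X * Y) * (1 + Real.log (X * Y)) ^ K * ((min X Y : ℕ) : ℝ) ^ (-(1 / 8) : ℝ))
    (u : ℝ) (N X Y : ℕ) (e f : ℤ) (hX : 1 ≤ X) (hY : 1 ≤ Y) :
    |∑ x ∈ (Ioc X (2 * X)).filter osf, ∑ y ∈ (Ioc Y (2 * Y)).filter osf,
      (if x ≤ N ∧ y ≤ N then J e x * J f y * J x y * Ps (x * y) u else 0)| ≤
      CP * C * (1 + Real.log (X * Y)) ^ K * ((min X Y : ℕ) : ℝ) ^ (-(1 / 8) : ℝ) := by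
  have hX' : (0 : ℝ) < X := by exact_mod_cast hX
  have hY' : (0 : ℝ) < Y := by exact_mod_cast hY
  set B : ℝ := C * (1 + Real.log (X * Y)) ^ K * ((min X Y : ℕ) : ℝ) ^ (-(1 / 8) : ℝ) with hBdef
  have hlog : 0 ≤ Real.log ((X : ℝ) * Y) := Real.log_nonneg (by
    have h1 : (1 : ℝ) ≤ X := by exact_mod_cast hX
    have h2 : (1 : ℝ) ≤ Y := by exact_mod_cast hY
    nlinarith)
  have hB0 : 0 ≤ B := by positivity
  let g : ℝ → ℂ := fun τ => ∑ x ∈ (Ioc X (2 * X)).filter osf, ∑ y ∈ (Ioc Y (2 * Y)).filter osf,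
    (if x ≤ N ∧ y ≤ N then (J e x : ℂ) * (J f y : ℂ) *
      (ff (1 + τ * Complex.I) x * ff (1 + τ * Complex.I) y * (J x y : ℂ)) else 0)
  have hg : Continuous g := by
    refine continuous_finsetSum _ fun x _ => continuous_finsetSum _ fun y _ => ?_
    split_ifs
    · exact continuous_const.mul (((ff_cont x).mul (ff_cont y)).mul continuous_const)
    · exact continuous_const
  have hgB : ∀ τ, ‖g τ‖ ≤ B := by
    intro τ
    have h := hB X Y (al X N e τ) (al Y N f τ) hX hY (al_norm _ _ _ _) (al_norm _ _ _ _)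
    have e1 : ∑ x ∈ (Ioc X (2 * X)).filter osf, ∑ y ∈ (Ioc Y (2 * Y)).filter osf,
        al X N e τ x * al Y N f τ y * (J x y : ℂ) = (X * Y : ℂ) * g τ := by
      simp only [g, Finset.mul_sum]
      refine Finset.sum_congr rfl fun x hx => Finset.sum_congr rfl fun y hy => ?_
      rw [Finset.mem_filter, Finset.mem_Ioc] at hx hy
      unfold al
      by_cases h1 : x ≤ N <;> by_cases h2 : y ≤ N
      · rw [if_pos ⟨hx.1.1, h1, hx.2⟩, if_pos ⟨hy.1.1, h2, hy.2⟩, if_pos ⟨h1, h2⟩]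
        ring
      · rw [if_neg (fun h => h2 h.2.1 : ¬ (Y < y ∧ y ≤ N ∧ osf y)), if_neg (fun h => h2 h.2 : ¬ (x ≤ N ∧ y ≤ N))]
        ring
      · rw [if_neg (fun h => h1 h.2.1 : ¬ (X < x ∧ x ≤ N ∧ osf x)), if_neg (fun h => h1 h.1 : ¬ (x ≤ N ∧ y ≤ N))]
        ring
      · rw [if_neg (fun h => h1 h.2.1 : ¬ (X < x ∧ x ≤ N ∧ osf x)), if_neg (fun h => h1 h.1 : ¬ (x ≤ N ∧ y ≤ N))]
        ring
    rw [e1, norm_mul, norm_mul, Complex.norm_natCast, Complex.norm_natCast] at h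
    have h2 : (X : ℝ) * Y * ‖g τ‖ ≤ (X : ℝ) * Y * B := by
      refine h.trans (le_of_eq ?_)
      rw [hBdef]
      ring
    exact le_of_mul_le_mul_left h2 (by positivity)
  obtain ⟨-, h2⟩ := int_bound hP hCP u B hB0 g hg hgB
  have e2 : ((∑ x ∈ (Ioc X (2 * X)).filter osf, ∑ y ∈ (Ioc Y (2 * Y)).filter osf,
      (if x ≤ N ∧ y ≤ N then J e x * J f y * J x y * Ps (x * y) u else 0) : ℝ) : ℂ) =
      (1 / (2 * Real.pi) : ℂ) * ∫ τ : ℝ, ker u τ * g τ := by
    have hint : ∀ x ∈ (Ioc X (2 * X)).filter osf, ∀ y ∈ (Ioc Y (2 * Y)).filter osf,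
        Integrable (fun τ : ℝ => ker u τ * (if x ≤ N ∧ y ≤ N then (J e x : ℂ) * (J f y : ℂ) *
          (ff (1 + τ * Complex.I) x * ff (1 + τ * Complex.I) y * (J x y : ℂ)) else 0)) := by
      intro x hx y hy
      rw [Finset.mem_filter, Finset.mem_Ioc] at hx hy
      refine (int_bound hP hCP u 1 zero_le_one _ ?_ ?_).1
      · split_ifs
        · exact continuous_const.mul (((ff_cont x).mul (ff_cont y)).mul continuous_const)
        · exact continuous_const
      · intro τ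
        split_ifs
        · rw [norm_mul, norm_mul, norm_mul, norm_mul, Complex.norm_real, Complex.norm_real, Complex.norm_real,
            Real.norm_eq_abs, Real.norm_eq_abs, Real.norm_eq_abs]
          have hx1 : ‖ff (1 + τ * Complex.I) x‖ ≤ 1 := by
            refine (ff_norm τ hx.2.2).trans ?_
            have : (1 : ℝ) ≤ x := by
              have : 1 ≤ x := by omega
              exact_mod_cast this
            rw [div_le_one (by linarith)]
            exact this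
          have hy1 : ‖ff (1 + τ * Complex.I) y‖ ≤ 1 := by
            refine (ff_norm τ hy.2.2).trans ?_
            have : (1 : ℝ) ≤ y := by
              have : 1 ≤ y := by omega
              exact_mod_cast this
            rw [div_le_one (by linarith)]
            exact this
          calc |J e x| * |J f y| * (‖ff (1 + τ * Complex.I) x‖ * ‖ff (1 + τ * Complex.I) y‖ * |J x y|)
              ≤ 1 * 1 * (1 * 1 * 1) := by
                gcongr
                · exact abs_J_le _ _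
                · exact abs_J_le _ _
                · exact abs_J_le _ _
            _ = 1 := by norm_num
        · simp
    simp only [g, Finset.mul_sum]
    rw [integral_finsetSum _ (fun x hx => integrable_finsetSum _ (fun y hy => hint x hx y hy)), Finset.mul_sum]
    rw [Complex.ofReal_sum]
    refine Finset.sum_congr rfl fun x hx => ?_
    rw [integral_finsetSum _ (fun y hy => hint x hx y hy), Finset.mul_sum, Complex.ofReal_sum]
    refine Finset.sum_congr rfl fun y hy => ?_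
    rw [Finset.mem_filter] at hx hy
    split_ifs with h
    · have h3 := term_eq hS u hx.2 hy.2
      calc ((J e x * J f y * J x y * Ps (x * y) u : ℝ) : ℂ)
          = (J e x : ℂ) * (J f y : ℂ) * ((J x y : ℂ) * (Ps (x * y) u : ℂ)) := by
            push_cast
            ring
        _ = (J e x : ℂ) * (J f y : ℂ) * ((1 / (2 * Real.pi) : ℂ) * ∫ τ : ℝ, ker u τ *
              (ff (1 + τ * Complex.I) x * ff (1 + τ * Complex.I) y * (J x y : ℂ))) := by rw [h3]
        _ = (1 / (2 * Real.pi) : ℂ) * ((J e x : ℂ) * (J f y : ℂ) * ∫ τ : ℝ, ker u τ *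
              (ff (1 + τ * Complex.I) x * ff (1 + τ * Complex.I) y * (J x y : ℂ))) := by ring
        _ = _ := by
            rw [← integral_const_mul]
            congr 2
            funext τ
            ring
    · simp
  have h3 : |∑ x ∈ (Ioc X (2 * X)).filter osf, ∑ y ∈ (Ioc Y (2 * Y)).filter osf,
      (if x ≤ N ∧ y ≤ N then J e x * J f y * J x y * Ps (x * y) u else 0)| =
      ‖(1 / (2 * Real.pi) : ℂ) * ∫ τ : ℝ, ker u τ * g τ‖ := by
    rw [← e2, Complex.norm_real, Real.norm_eq_abs]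
  rw [h3, norm_mul]
  have h4 : ‖(1 / (2 * Real.pi) : ℂ)‖ = 1 / (2 * Real.pi) := by
    rw [norm_div, norm_mul, norm_one, Complex.norm_real, Real.norm_eq_abs, abs_of_pos Real.pi_pos]
    norm_num
  rw [h4]
  have hCP0 : 0 ≤ CP := by
    have := (norm_nonneg _).trans (hCP 0)
    simpa using this
  have hpi := Real.pi_pos
  calc 1 / (2 * Real.pi) * ‖∫ τ : ℝ, ker u τ * g τ‖ ≤ 1 / (2 * Real.pi) * (CP * B * Real.pi) := by gcongr
    _ = CP * B / 2 := by field_simp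
    _ ≤ CP * B := by
        have : 0 ≤ CP * B := by positivity
        linarith
    _ = _ := by rw [hBdef]; ring

theorem dyadic {M : Type} [AddCommMonoid M] (z m : ℕ) (h : ℕ → M) :
    ∑ x ∈ (Ioc z (z * 2 ^ m)).filter osf, h x =
      ∑ i ∈ Finset.range m, ∑ x ∈ (Ioc (z * 2 ^ i) (2 * (z * 2 ^ i))).filter osf, h x := by
  induction m with
  | zero => simp
  | succ m ih =>
    rw [Finset.sum_range_succ, ← ih]
    have e : 2 * (z * 2 ^ m) = z * 2 ^ (m + 1) := by rw [pow_succ]; ring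
    rw [e]
    have h1 : z ≤ z * 2 ^ m := Nat.le_mul_of_pos_right _ (by positivity)
    have h2 : z * 2 ^ m ≤ z * 2 ^ (m + 1) := Nat.mul_le_mul_left _ (Nat.pow_le_pow_right (by norm_num) (by omega))
    rw [← Finset.sum_union]
    · rw [← Finset.filter_union, Finset.Ioc_union_Ioc_eq_Ioc h1 h2]
    · refine Finset.disjoint_filter_filter ?_
      rw [Finset.disjoint_left]
      intro a ha hb
      rw [Finset.mem_Ioc] at ha hb
      omega

theorem t_GB : S_PHB → S_BIL → S_PSI → S_GB := by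
  intro hP hBil hS
  obtain ⟨CP, hCP0, hCP⟩ := Ph_bound hP
  obtain ⟨C, K, hC, hB⟩ := hBil
  refine ⟨9 * 4 ^ K * (CP * C), K + 2, by positivity, ?_⟩
  intro u z e f hu hz _ _
  set N := ⌊Real.exp u⌋₊ with hN
  have hz' : (0 : ℝ) < z := by exact_mod_cast hz
  have hzp : 0 ≤ (z : ℝ) ^ (-(1 / 8) : ℝ) := Real.rpow_nonneg hz'.le _
  by_cases hzN : N ≤ z
  · rw [Finset.Ioc_eq_empty (by omega)]
    simp only [Finset.filter_empty, Finset.sum_empty, abs_zero]
    positivity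
  push Not at hzN
  have hNu : (N : ℝ) ≤ Real.exp u := Nat.floor_le (Real.exp_pos u).le
  have hN1 : 1 ≤ N := by omega
  set m := Nat.log 2 N + 1 with hm
  have hNm : N < 2 ^ m := Nat.lt_pow_succ_log_self (by norm_num) N
  have hmN : 2 ^ (m - 1) ≤ N := by
    rw [hm, Nat.add_sub_cancel]
    exact Nat.pow_log_le_self 2 (by omega)
  have hNz : N ≤ z * 2 ^ m := hNm.le.trans (Nat.le_mul_of_pos_left _ (by omega))
  have hlogN : Real.log N ≤ u := by
    rw [Real.log_le_iff_le_exp (by exact_mod_cast hN1)]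
    exact hNu
  have hlog2 : (1 / 2 : ℝ) ≤ Real.log 2 := by
    have := Real.log_two_gt_d9
    linarith
  have hm3 : (m : ℝ) ≤ 3 * (1 + u) := by
    have h1 : ((m : ℝ) - 1) * Real.log 2 ≤ u := by
      have h2 : Real.log ((2 : ℝ) ^ (m - 1)) ≤ Real.log N := by
        apply Real.log_le_log (by positivity)
        exact_mod_cast hmN
      rw [Real.log_pow] at h2
      have h3 : ((m - 1 : ℕ) : ℝ) = (m : ℝ) - 1 := by
        rw [hm]
        push_cast
        simp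
      rw [h3] at h2
      linarith
    have h4 : (0 : ℝ) ≤ (m : ℝ) - 1 := by
      rw [hm]
      push_cast
      simp
    nlinarith
  -- rewrite as truncated sums over dyadic boxes
  have hE : ∑ x ∈ (Ioc z N).filter osf, ∑ y ∈ (Ioc z N).filter osf, J e x * J f y * J x y * Ps (x * y) u
      = ∑ i ∈ Finset.range m, ∑ j ∈ Finset.range m,
        ∑ x ∈ (Ioc (z * 2 ^ i) (2 * (z * 2 ^ i))).filter osf, ∑ y ∈ (Ioc (z * 2 ^ j) (2 * (z * 2 ^ j))).filter osf,
          (if x ≤ N ∧ y ≤ N then J e x * J f y * J x y * Ps (x * y) u else 0) := by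
    have hsub : ∀ h : ℕ → ℝ, ∑ x ∈ (Ioc z N).filter osf, h x =
        ∑ x ∈ (Ioc z (z * 2 ^ m)).filter osf, (if x ≤ N then h x else 0) := by
      intro h
      rw [← Finset.sum_filter]
      refine Finset.sum_congr ?_ fun _ _ => rfl
      ext x
      simp only [Finset.mem_filter, Finset.mem_Ioc]
      constructor
      · rintro ⟨⟨h1, h2⟩, h3⟩
        exact ⟨⟨⟨h1, by omega⟩, h3⟩, h2⟩
      · rintro ⟨⟨⟨h1, h2⟩, h3⟩, h4⟩
        exact ⟨⟨h1, h4⟩, h3⟩
    rw [hsub, dyadic]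
    refine Finset.sum_congr rfl fun i _ => ?_
    rw [Finset.sum_comm]
    refine Finset.sum_congr rfl fun x _ => ?_
    rw [← dyadic z m (fun y => if x ≤ N ∧ y ≤ N then J e x * J f y * J x y * Ps (x * y) u else 0)]
    rw [hsub]
    by_cases hx : x ≤ N
    · simp only [hx, true_and, if_true]
    · simp only [hx, false_and, if_false, Finset.sum_const_zero]
  rw [hE]
  have hbox : ∀ i ∈ Finset.range m, ∀ j ∈ Finset.range m,
      |∑ x ∈ (Ioc (z * 2 ^ i) (2 * (z * 2 ^ i))).filter osf, ∑ y ∈ (Ioc (z * 2 ^ j) (2 * (z * 2 ^ j))).filter osf,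
          (if x ≤ N ∧ y ≤ N then J e x * J f y * J x y * Ps (x * y) u else 0)| ≤
        CP * C * (4 * (1 + u)) ^ K * (z : ℝ) ^ (-(1 / 8) : ℝ) := by
    intro i hi j hj
    rw [Finset.mem_range] at hi hj
    have h2i : 1 ≤ 2 ^ i := Nat.one_le_two_pow
    have h2j : 1 ≤ 2 ^ j := Nat.one_le_two_pow
    have hXi : 1 ≤ z * 2 ^ i := Nat.mul_pos hz (by positivity)
    have hYj : 1 ≤ z * 2 ^ j := Nat.mul_pos hz (by positivity)
    refine (box hP hS hCP hC hB u N (z * 2 ^ i) (z * 2 ^ j) e f hXi hYj).trans ?_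
    have hle : ∀ i < m, z * 2 ^ i ≤ N * N := by
      intro i hi
      have : 2 ^ i ≤ 2 ^ (m - 1) := Nat.pow_le_pow_right (by norm_num) (by omega)
      exact Nat.mul_le_mul hzN.le (this.trans hmN)
    have hlogX : ∀ i < m, Real.log ((z * 2 ^ i : ℕ) : ℝ) ≤ 2 * u := by
      intro i hi
      have h1 : ((z * 2 ^ i : ℕ) : ℝ) ≤ (N : ℝ) * N := by exact_mod_cast hle i hi
      have h2 : (0 : ℝ) < ((z * 2 ^ i : ℕ) : ℝ) := by
        have : 0 < z * 2 ^ i := Nat.mul_pos hz (by positivity)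
        exact_mod_cast this
      have hN' : (N : ℝ) ≠ 0 := by
        have : N ≠ 0 := by omega
        exact_mod_cast this
      have h3 := Real.log_le_log h2 h1
      rw [Real.log_mul hN' hN'] at h3
      linarith
    have hXpos : (0 : ℝ) < ((z * 2 ^ i : ℕ) : ℝ) := by exact_mod_cast hXi
    have hYpos : (0 : ℝ) < ((z * 2 ^ j : ℕ) : ℝ) := by exact_mod_cast hYj
    have hlogXY : Real.log (((z * 2 ^ i : ℕ) : ℝ) * ((z * 2 ^ j : ℕ) : ℝ)) ≤ 4 * u := by
      rw [Real.log_mul hXpos.ne' hYpos.ne']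
      have := hlogX i hi
      have := hlogX j hj
      linarith
    have hlog0 : 0 ≤ Real.log (((z * 2 ^ i : ℕ) : ℝ) * ((z * 2 ^ j : ℕ) : ℝ)) := by
      apply Real.log_nonneg
      have : 1 ≤ (z * 2 ^ i) * (z * 2 ^ j) := Nat.mul_pos hXi hYj
      exact_mod_cast this
    have hmin : ((min (z * 2 ^ i) (z * 2 ^ j) : ℕ) : ℝ) ^ (-(1 / 8) : ℝ) ≤ (z : ℝ) ^ (-(1 / 8) : ℝ) := by
      apply Real.rpow_le_rpow_of_nonpos hz' _ (by norm_num)
      have : z ≤ min (z * 2 ^ i) (z * 2 ^ j) :=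
        le_min (Nat.le_mul_of_pos_right _ (by positivity)) (Nat.le_mul_of_pos_right _ (by positivity))
      exact_mod_cast this
    have hmin0 : 0 ≤ ((min (z * 2 ^ i) (z * 2 ^ j) : ℕ) : ℝ) ^ (-(1 / 8) : ℝ) := Real.rpow_nonneg (by positivity) _
    have hpow : (1 + Real.log (((z * 2 ^ i : ℕ) : ℝ) * ((z * 2 ^ j : ℕ) : ℝ))) ^ K ≤ (4 * (1 + u)) ^ K := by
      apply pow_le_pow_left₀ (by linarith)
      linarith
    have hCC : 0 ≤ CP * C := mul_nonneg hCP0 hC
    calc CP * C * (1 + Real.log (((z * 2 ^ i : ℕ) : ℝ) * ((z * 2 ^ j : ℕ) : ℝ))) ^ K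
          * ((min (z * 2 ^ i) (z * 2 ^ j) : ℕ) : ℝ) ^ (-(1 / 8) : ℝ)
        ≤ CP * C * (4 * (1 + u)) ^ K * (z : ℝ) ^ (-(1 / 8) : ℝ) := by
          gcongr
      _ = _ := rfl
  have hsum : |∑ i ∈ Finset.range m, ∑ j ∈ Finset.range m,
        ∑ x ∈ (Ioc (z * 2 ^ i) (2 * (z * 2 ^ i))).filter osf, ∑ y ∈ (Ioc (z * 2 ^ j) (2 * (z * 2 ^ j))).filter osf,
          (if x ≤ N ∧ y ≤ N then J e x * J f y * J x y * Ps (x * y) u else 0)| ≤
      ∑ i ∈ Finset.range m, ∑ j ∈ Finset.range m, (CP * C * (4 * (1 + u)) ^ K * (z : ℝ) ^ (-(1 / 8) : ℝ)) := by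
    refine (Finset.abs_sum_le_sum_abs _ _).trans (Finset.sum_le_sum fun i hi => ?_)
    exact (Finset.abs_sum_le_sum_abs _ _).trans (Finset.sum_le_sum fun j hj => hbox i hi j hj)
  refine hsum.trans ?_
  rw [Finset.sum_const, Finset.sum_const, Finset.card_range, nsmul_eq_mul, nsmul_eq_mul]
  have hCC : 0 ≤ CP * C := mul_nonneg hCP0 hC
  have hm0 : (0 : ℝ) ≤ m := Nat.cast_nonneg _
  have hD : 0 ≤ CP * C * (4 * (1 + u)) ^ K * (z : ℝ) ^ (-(1 / 8) : ℝ) := by positivity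
  calc (m : ℝ) * ((m : ℝ) * (CP * C * (4 * (1 + u)) ^ K * (z : ℝ) ^ (-(1 / 8) : ℝ)))
      ≤ (3 * (1 + u)) * ((3 * (1 + u)) * (CP * C * (4 * (1 + u)) ^ K * (z : ℝ) ^ (-(1 / 8) : ℝ))) := by gcongr
    _ = 9 * 4 ^ K * (CP * C) * (1 + u) ^ (K + 2) * (z : ℝ) ^ (-(1 / 8) : ℝ) := by
        rw [mul_pow, pow_add]
        ring

end

end Pool.Agent.Y240.FK
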